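import Mathlib

set_option autoImplicit false

open Polynomial

namespace Pool.Agent.Helper52.GenFiber

variable {B A : Type*} [CommRing B] [CommRing A] [IsDomain B] [IsDomain A] [Algebra B A]

/-- Primitive element lying in `A`, with denominators in `B`. -/
theorem exists_primitive [CharZero B] (hinj : Function.Injective (algebraMap B A))
    [Algebra.FiniteType B A] [Algebra.IsAlgebraic B A] :
    ∃ θ : A, ∀ x : A, ∃ (d : B) (R : B[X]), d ≠ 0 ∧ algebraMap B A d * x = aeval θ R := by
  classical
  have : FaithfulSMul B A := (faithfulSMul_iff_algebraMap_injective B A).mpr hinj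
  let K := FractionRing B
  let L := FractionRing A
  let : Algebra K L := FractionRing.liftAlgebra B L
  have : IsScalarTower B K L := FractionRing.isScalarTower_liftAlgebra B L
  have : Algebra.IsAlgebraic B L := (IsFractionRing.isAlgebraic_iff' B A L).1 inferInstance
  have : Algebra.IsAlgebraic K L :=
    ⟨fun _ ↦ (IsFractionRing.isAlgebraic_iff B K L).1 (Algebra.IsAlgebraic.isAlgebraic _)⟩
  have : Algebra.EssFiniteType B L := Algebra.EssFiniteType.comp B A L
  have : Algebra.EssFiniteType K L := Algebra.EssFiniteType.of_comp B K L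
  have : Module.Finite K L := Algebra.finite_of_essFiniteType_of_isAlgebraic
  have : CharZero K := charZero_of_injective_algebraMap (IsFractionRing.injective B K)
  obtain ⟨θ0, hθ0⟩ := Field.exists_primitive_element K L
  obtain ⟨a, b, hb, hab⟩ := IsFractionRing.div_surjective (A := A) θ0
  obtain ⟨r, hr, c, hc⟩ := (Algebra.IsAlgebraic.isAlgebraic (R := B) b).exists_nonzero_dvd hb
  have hinjL : Function.Injective (algebraMap A L) := IsFractionRing.injective A L
  have hinjK : Function.Injective (algebraMap B K) := IsFractionRing.injective B K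
  have hb0 : algebraMap A L b ≠ 0 := by
    intro h
    exact nonZeroDivisors.ne_zero hb (hinjL (by rw [h, map_zero]))
  -- the primitive element
  have hkey : algebraMap A L (a * c) = algebraMap K L (algebraMap B K r) * θ0 := by
    rw [← IsScalarTower.algebraMap_apply B K L, IsScalarTower.algebraMap_apply B A L, hc,
      ← hab, map_mul, map_mul, mul_comm (algebraMap A L b), mul_assoc, mul_div_cancel₀ _ hb0, mul_comm]
  have hrK : algebraMap B K r ≠ 0 := by
    intro h; exact hr (hinjK (by rw [h, map_zero]))
  have htop : IntermediateField.adjoin K {algebraMap A L (a * c)} = ⊤ := by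
    rw [eq_top_iff, ← hθ0, IntermediateField.adjoin_simple_le_iff]
    have h1 : θ0 = algebraMap K L (algebraMap B K r)⁻¹ * algebraMap A L (a * c) := by
      rw [hkey, map_inv₀, ← mul_assoc, inv_mul_cancel₀, one_mul]
      intro h
      exact hrK ((algebraMap K L).injective (by rw [h, map_zero]))
    rw [h1]
    exact mul_mem (IntermediateField.algebraMap_mem _ _) (IntermediateField.mem_adjoin_simple_self K _)
  refine ⟨a * c, fun x => ?_⟩
  have hx : algebraMap A L x ∈ (⊤ : Subalgebra K L) := Algebra.mem_top
  rw [← (Algebra.adjoin_eq_top_of_primitive_element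
    (Algebra.IsAlgebraic.isAlgebraic (R := K) (algebraMap A L (a * c))) htop),
    Algebra.adjoin_singleton_eq_range_aeval] at hx
  obtain ⟨p, hp⟩ := hx
  obtain ⟨d, hd, hdp⟩ := IsLocalization.integerNormalization_spec (nonZeroDivisors B) p
  refine ⟨d, IsLocalization.integerNormalization (nonZeroDivisors B) p, nonZeroDivisors.ne_zero hd, ?_⟩
  apply hinjL
  rw [map_mul, ← aeval_algebraMap_apply, ← IsScalarTower.algebraMap_apply B A L]
  have h2 : aeval (algebraMap A L (a * c)) (IsLocalization.integerNormalization (nonZeroDivisors B) p)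
      = aeval (algebraMap A L (a * c)) ((IsLocalization.integerNormalization (nonZeroDivisors B) p).map (algebraMap B K)) := by
    rw [aeval_map_algebraMap]
  rw [h2, hdp, ← hp]
  simp [Algebra.smul_def, IsScalarTower.algebraMap_apply B K L]

/-- A polynomial of minimal degree over `B` killing `θ`, together with a separability certificate. -/
theorem exists_minimal [CharZero B] (hinj : Function.Injective (algebraMap B A))
    (θ : A) (hθ : IsAlgebraic B θ) :
    ∃ m : B[X], m ≠ 0 ∧ aeval θ m = 0 ∧ (∀ q : B[X], aeval θ q = 0 → q.degree < m.degree → q = 0) ∧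
      ∃ (U V : B[X]) (e : B), e ≠ 0 ∧ U * m + V * derivative m = C e := by
  classical
  have : FaithfulSMul B A := (faithfulSMul_iff_algebraMap_injective B A).mpr hinj
  let K := FractionRing B
  let L := FractionRing A
  let : Algebra K L := FractionRing.liftAlgebra B L
  have : IsScalarTower B K L := FractionRing.isScalarTower_liftAlgebra B L
  have : CharZero K := charZero_of_injective_algebraMap (IsFractionRing.injective B K)
  have hinjL : Function.Injective (algebraMap A L) := IsFractionRing.injective A L
  have hinjK : Function.Injective (algebraMap B K) := IsFractionRing.injective B K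
  have hmapinj : Function.Injective (Polynomial.map (algebraMap B K)) := Polynomial.map_injective _ hinjK
  set t : L := algebraMap A L θ with ht
  have htalgB : IsAlgebraic B t := hθ.algebraMap
  have htK : IsIntegral K t :=
    isAlgebraic_iff_isIntegral.mp ((IsFractionRing.isAlgebraic_iff B K L).1 htalgB)
  set μ := minpoly K t with hμ
  have hμ0 : μ ≠ 0 := minpoly.ne_zero htK
  have hsep : μ.Separable := (minpoly.irreducible htK).separable
  obtain ⟨a', b', hab⟩ := hsep
  obtain ⟨b, hb, hbm⟩ := IsLocalization.integerNormalization_spec (nonZeroDivisors B) μ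
  obtain ⟨α, hα, hαm⟩ := IsLocalization.integerNormalization_spec (nonZeroDivisors B) a'
  obtain ⟨β, hβ, hβm⟩ := IsLocalization.integerNormalization_spec (nonZeroDivisors B) b'
  set m := IsLocalization.integerNormalization (nonZeroDivisors B) μ with hm
  set A1 := IsLocalization.integerNormalization (nonZeroDivisors B) a' with hA1
  set B1 := IsLocalization.integerNormalization (nonZeroDivisors B) b' with hB1
  have hb0 : b ≠ 0 := nonZeroDivisors.ne_zero hb
  have hα0 : α ≠ 0 := nonZeroDivisors.ne_zero hα
  have hβ0 : β ≠ 0 := nonZeroDivisors.ne_zero hβ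
  have hbK : algebraMap B K b ≠ 0 := fun h => hb0 (hinjK (by rw [h, map_zero]))
  have hsm : ∀ (x : B) (p : K[X]), x • p = C (algebraMap B K x) * p := by
    intro x p
    rw [← smul_eq_C_mul, algebraMap_smul]
  have hm0 : m ≠ 0 := by
    intro h
    rw [h, Polynomial.map_zero, hsm] at hbm
    rcases mul_eq_zero.mp hbm.symm with h1 | h1
    · exact hbK (C_eq_zero.mp h1)
    · exact hμ0 h1
  have hdeg : m.degree = μ.degree := by
    have h1 : (m.map (algebraMap B K)).degree = m.degree := degree_map_eq_of_injective hinjK m
    rw [← h1, hbm, hsm, degree_C_mul hbK]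
  have haev : ∀ q : B[X], aeval t (q.map (algebraMap B K)) = algebraMap A L (aeval θ q) := by
    intro q
    rw [aeval_map_algebraMap, ht, aeval_algebraMap_apply]
  refine ⟨m, hm0, ?_, ?_, C β * A1, C α * B1, α * β * b, mul_ne_zero (mul_ne_zero hα0 hβ0) hb0, ?_⟩
  · apply hinjL
    rw [← haev, hbm, hsm, map_mul, hμ, minpoly.aeval, mul_zero, map_zero]
  · intro q hq hlt
    have h1 : aeval t (q.map (algebraMap B K)) = 0 := by rw [haev, hq, map_zero]
    have h2 : μ ∣ q.map (algebraMap B K) := minpoly.dvd K t h1
    have h3 : q.map (algebraMap B K) = 0 := by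
      by_contra hne
      have := degree_le_of_dvd h2 hne
      rw [degree_map_eq_of_injective hinjK, ← hdeg] at this
      exact absurd hlt (not_lt.mpr this)
    exact hmapinj (by rw [h3, Polynomial.map_zero])
  · apply hmapinj
    simp only [Polynomial.map_add, Polynomial.map_mul, Polynomial.map_C, ← derivative_map, hbm, hαm, hβm, hsm,
      map_mul, derivative_C_mul]
    linear_combination (C (algebraMap B K α) * C (algebraMap B K β) * C (algebraMap B K b)) * hab

/-- If `q` kills `θ`, then its specialisation kills every root of the specialised minimal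
polynomial, provided the leading coefficient survives. -/
theorem eval_eq_zero_of_root {k : Type*} [Field k] (ev : B →+* k) {θ : A} {m : B[X]} (hm0 : m ≠ 0)
    (hmθ : aeval θ m = 0)
    (hmin : ∀ q : B[X], aeval θ q = 0 → q.degree < m.degree → q = 0) {ρ : k}
    (hρ : eval₂ ev ρ m = 0) (hlc : ev m.leadingCoeff ≠ 0) (q : B[X]) (hq : aeval θ q = 0) :
    eval₂ ev ρ q = 0 := by
  classical
  induction hn : q.natDegree using Nat.strong_induction_on generalizing q with
  | _ n ih =>
    by_cases hlt : q.degree < m.degree
    · rw [hmin q hq hlt, eval₂_zero]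
    · push Not at hlt
      by_cases hq0 : q = 0
      · rw [hq0, eval₂_zero]
      have hnat : m.natDegree ≤ q.natDegree := natDegree_le_natDegree hlt
      set q1 : B[X] := C m.leadingCoeff * q - C q.leadingCoeff * X ^ (q.natDegree - m.natDegree) * m with hq1
      have hq1θ : aeval θ q1 = 0 := by
        rw [hq1, map_sub, map_mul, map_mul, hq, hmθ]; simp
      have hev : eval₂ ev ρ q1 = ev m.leadingCoeff * eval₂ ev ρ q := by
        rw [hq1, eval₂_sub, eval₂_mul, eval₂_mul, hρ, eval₂_C]; simp
      have hmain : eval₂ ev ρ q1 = 0 := by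
        by_cases h0 : q.natDegree = 0
        · -- then m is a constant, and q1 = 0
          have hm00 : m.natDegree = 0 := by omega
          have : q1 = 0 := by
            rw [hq1, h0, hm00]
            have h1 : m = C m.leadingCoeff := by
              conv_lhs => rw [eq_C_of_natDegree_eq_zero hm00]
              rw [leadingCoeff, hm00]
            have h2 : q = C q.leadingCoeff := by
              conv_lhs => rw [eq_C_of_natDegree_eq_zero h0]
              rw [leadingCoeff, h0]
            conv_lhs => rw [h1, h2]
            simp [mul_comm]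
          rw [this, eval₂_zero]
        · have hlt' : q1.natDegree < q.natDegree := by
            by_cases hq10 : q1 = 0
            · rw [hq10, natDegree_zero]; omega
            apply natDegree_lt_natDegree hq10
            have hd1 : (C m.leadingCoeff * q).degree = q.degree := by
              rw [degree_C_mul]
              exact leadingCoeff_ne_zero.mpr hm0
            have hd2 : (C q.leadingCoeff * X ^ (q.natDegree - m.natDegree) * m).degree = q.degree := by
              rw [degree_mul, degree_C_mul_X_pow _ (leadingCoeff_ne_zero.mpr hq0),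
                degree_eq_natDegree hm0, degree_eq_natDegree hq0, ← Nat.cast_add,
                Nat.sub_add_cancel hnat]
            rw [← hd1]
            apply degree_sub_lt_left (by rw [hd1, hd2])
            · rw [← leadingCoeff_ne_zero, leadingCoeff_mul, leadingCoeff_C]
              exact mul_ne_zero (leadingCoeff_ne_zero.mpr hm0) (leadingCoeff_ne_zero.mpr hq0)
            · rw [leadingCoeff_mul, leadingCoeff_mul, leadingCoeff_C, leadingCoeff_mul, leadingCoeff_C,
                leadingCoeff_X_pow, mul_one, mul_comm]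
          exact ih q1.natDegree (by omega) q1 hq1θ rfl
      rw [hev] at hmain
      exact (mul_eq_zero.mp hmain).resolve_left hlc

/-- Construction of the point of the fibre above a root of the specialised minimal polynomial. -/
theorem exists_hom {k : Type*} [Field k] (ev : B →+* k) {θ : A} (P : B)
    (hP : ev P ≠ 0)
    (hrep : ∀ x : A, ∃ (j : ℕ) (q : B[X]), algebraMap B A P ^ j * x = aeval θ q) {ρ : k}
    (hker : ∀ q : B[X], aeval θ q = 0 → eval₂ ev ρ q = 0) :
    ∃ χ : A →+* k, χ.comp (algebraMap B A) = ev ∧ χ θ = ρ := by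
  classical
  choose j q hjq using hrep
  let f : A → k := fun x => eval₂ ev ρ (q x) / ev P ^ (j x)
  have hPn : ∀ n : ℕ, ev P ^ n ≠ 0 := fun n => pow_ne_zero n hP
  have key : ∀ (x : A) (i : ℕ) (r : B[X]), algebraMap B A P ^ i * x = aeval θ r →
      f x = eval₂ ev ρ r / ev P ^ i := by
    intro x i r hr
    have h1 : aeval θ (C (P ^ i) * q x - C (P ^ (j x)) * r) = 0 := by
      rw [map_sub, map_mul, map_mul, aeval_C, aeval_C, ← hjq x, ← hr, map_pow, map_pow]
      ring
    have h2 := hker _ h1
    rw [eval₂_sub, eval₂_mul, eval₂_mul, eval₂_C, eval₂_C, map_pow, map_pow, sub_eq_zero] at h2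
    change eval₂ ev ρ (q x) / ev P ^ (j x) = _
    rw [div_eq_div_iff (hPn _) (hPn _)]
    linear_combination h2
  refine ⟨{ toFun := f, map_one' := ?_, map_mul' := ?_, map_zero' := ?_, map_add' := ?_ }, ?_, ?_⟩
  · rw [key 1 0 1 (by simp)]; simp
  · intro x y
    rw [key (x * y) (j x + j y) (q x * q y) (by
      rw [map_mul, ← hjq x, ← hjq y, pow_add]; ring), key x (j x) (q x) (hjq x), key y (j y) (q y) (hjq y),
      eval₂_mul, pow_add, div_mul_div_comm]
  · rw [key 0 0 0 (by simp)]; simp
  · intro x y
    rw [key (x + y) (j x + j y) (C (P ^ (j y)) * q x + C (P ^ (j x)) * q y) (by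
      rw [map_add, map_mul, map_mul, aeval_C, aeval_C, ← hjq x, ← hjq y, pow_add, map_pow, map_pow]; ring),
      key x (j x) (q x) (hjq x), key y (j y) (q y) (hjq y),
      eval₂_add, eval₂_mul, eval₂_mul, eval₂_C, eval₂_C, pow_add, map_pow, map_pow]
    have h1 := hPn (j x)
    have h2 := hPn (j y)
    field_simp
  · ext b
    change f (algebraMap B A b) = ev b
    rw [key (algebraMap B A b) 0 (C b) (by simp)]
    simp
  · change f θ = ρ
    rw [key θ 0 X (by simp)]
    simp

theorem generic_fibre [CharZero B] (hinj : Function.Injective (algebraMap B A))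
    [Algebra.FiniteType B A] [Algebra.IsAlgebraic B A] :
    ∃ (N : ℕ) (P : B), P ≠ 0 ∧ ∀ (k : Type) [Field k] [IsAlgClosed k] (ev : B →+* k), ev P ≠ 0 →
      {χ : A →+* k | χ.comp (algebraMap B A) = ev}.Finite ∧
      {χ : A →+* k | χ.comp (algebraMap B A) = ev}.ncard = N := by
  classical
  obtain ⟨θ, hθ⟩ := exists_primitive (B := B) (A := A) hinj
  obtain ⟨m, hm0, hmθ, hmin, U, V, e, he, hUV⟩ :=
    exists_minimal hinj θ (Algebra.IsAlgebraic.isAlgebraic (R := B) θ)
  obtain ⟨S, hS⟩ := (inferInstance : Algebra.FiniteType B A).out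
  choose d R hd hdR using hθ
  set D : B := ∏ x ∈ S, d x with hD
  have hD0 : D ≠ 0 := Finset.prod_ne_zero_iff.mpr (fun x _ => hd x)
  refine ⟨m.natDegree, m.leadingCoeff * e * D,
    mul_ne_zero (mul_ne_zero (leadingCoeff_ne_zero.mpr hm0) he) hD0, ?_⟩
  intro k _ _ ev hev
  rw [map_mul, map_mul] at hev
  have hlc : ev m.leadingCoeff ≠ 0 := fun h => hev (by rw [h]; ring)
  have hev_e : ev e ≠ 0 := fun h => hev (by rw [h]; ring)
  have hev_D : ev D ≠ 0 := fun h => hev (by rw [h]; ring)
  -- representation with powers of D
  have hrep : ∀ x : A, ∃ (j : ℕ) (q : B[X]), algebraMap B A D ^ j * x = aeval θ q := by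
    intro x
    have hx : x ∈ Algebra.adjoin B (S : Set A) := by rw [hS]; exact Algebra.mem_top
    induction hx using Algebra.adjoin_induction with
    | mem x hx =>
      refine ⟨1, C (∏ y ∈ S.erase x, d y) * R x, ?_⟩
      rw [map_mul, aeval_C, ← hdR x, pow_one, hD, ← Finset.mul_prod_erase S d hx, map_mul]
      ring
    | algebraMap r => exact ⟨0, C r, by simp⟩
    | add x y _ _ hx hy =>
      obtain ⟨i, q, hq⟩ := hx
      obtain ⟨j, r, hr⟩ := hy
      refine ⟨i + j, C (D ^ j) * q + C (D ^ i) * r, ?_⟩
      rw [map_add, map_mul, map_mul, aeval_C, aeval_C, ← hq, ← hr, map_pow, map_pow]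
      ring
    | mul x y _ _ hx hy =>
      obtain ⟨i, q, hq⟩ := hx
      obtain ⟨j, r, hr⟩ := hy
      refine ⟨i + j, q * r, ?_⟩
      rw [map_mul, ← hq, ← hr]
      ring
  -- the roots
  set mT : k[X] := m.map ev with hmT
  have hmT0 : mT ≠ 0 := by
    intro h
    have : mT.coeff m.natDegree = 0 := by rw [h, coeff_zero]
    rw [hmT, coeff_map] at this
    exact hlc this
  have hdegT : mT.natDegree = m.natDegree := natDegree_map_of_leadingCoeff_ne_zero ev hlc
  have hsepT : mT.Separable := by
    refine ⟨C (ev e)⁻¹ * U.map ev, C (ev e)⁻¹ * V.map ev, ?_⟩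
    have h1 : U.map ev * mT + V.map ev * derivative mT = C (ev e) := by
      have := congrArg (Polynomial.map ev) hUV
      simpa only [Polynomial.map_add, Polynomial.map_mul, Polynomial.map_C, ← derivative_map] using this
    have h2 : C (ev e)⁻¹ * C (ev e) = (1 : k[X]) := by
      rw [← C_mul, inv_mul_cancel₀ hev_e, C_1]
    linear_combination (C (ev e)⁻¹) * h1 + h2
  have hrootcard : mT.roots.toFinset.card = m.natDegree := by
    rw [Multiset.toFinset_card_of_nodup (nodup_roots hsepT), ← hdegT]
    exact (IsAlgClosed.splits mT).natDegree_eq_card_roots.symm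
  -- the bijection
  have hinj' : Set.InjOn (fun χ : A →+* k => χ θ) {χ : A →+* k | χ.comp (algebraMap B A) = ev} := by
    intro χ₁ h₁ χ₂ h₂ h12
    simp only [Set.mem_setOf_eq] at h₁ h₂ h12
    have hB : ∀ (χ : A →+* k), χ.comp (algebraMap B A) = ev → ∀ q : B[X], χ (aeval θ q) = eval₂ ev (χ θ) q := by
      intro χ h q
      rw [aeval_def, hom_eval₂, h]
    ext x
    obtain ⟨j, q, hq⟩ := hrep x
    have e1 := congrArg χ₁ hq
    have e2 := congrArg χ₂ hq
    rw [hB χ₁ h₁, map_mul, map_pow, ← RingHom.comp_apply, h₁] at e1
    rw [hB χ₂ h₂, map_mul, map_pow, ← RingHom.comp_apply, h₂, ← h12, ← e1] at e2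
    exact (mul_left_cancel₀ (pow_ne_zero _ hev_D) e2).symm
  have himg : (fun χ : A →+* k => χ θ) '' {χ : A →+* k | χ.comp (algebraMap B A) = ev} =
      (mT.roots.toFinset : Set k) := by
    ext ρ
    constructor
    · rintro ⟨χ, hχ, rfl⟩
      simp only [Set.mem_setOf_eq] at hχ
      simp only [Multiset.mem_toFinset, Finset.mem_coe]
      rw [mem_roots hmT0, IsRoot.def, hmT, eval_map, ← hχ, ← hom_eval₂, ← aeval_def, hmθ, map_zero]
    · intro hρ
      simp only [Multiset.mem_toFinset, Finset.mem_coe] at hρ
      rw [mem_roots hmT0, IsRoot.def, hmT, eval_map] at hρ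
      obtain ⟨χ, h1, h2⟩ := exists_hom ev D hev_D hrep (ρ := ρ)
        (fun q hq => eval_eq_zero_of_root ev hm0 hmθ hmin hρ hlc q hq)
      exact ⟨χ, h1, h2⟩
  constructor
  · apply Set.Finite.of_finite_image _ hinj'
    rw [himg]
    exact Finset.finite_toSet _
  · rw [← Set.ncard_image_of_injOn hinj', himg, Set.ncard_coe_finset, hrootcard]

end Pool.Agent.Helper52.GenFiber
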