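import Mathlib
import Pool.Agent.Helper52.GenFiber

set_option autoImplicit false

open MvPolynomial

namespace Pool.Agent.Helper52.GenFiber

/-- Generic fibre theorem for polynomial self-maps of affine space with algebraically
independent components. -/
theorem generic_fibre_mv {σ : Type} [Finite σ] (Φ : σ → MvPolynomial σ ℂ)
    (h : AlgebraicIndependent ℂ Φ) :
    ∃ (N : ℕ) (P : MvPolynomial σ ℂ), P ≠ 0 ∧ ∀ T : σ → ℂ, eval T P ≠ 0 →
      {v : σ → ℂ | ∀ i, eval v (Φ i) = T i}.Finite ∧
      {v : σ → ℂ | ∀ i, eval v (Φ i) = T i}.ncard = N := by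
  classical
  have htb : IsTranscendenceBasis ℂ Φ := by
    apply AlgebraicIndependent.isTranscendenceBasis_of_lift_trdeg_le_of_finite h
    rw [MvPolynomial.trdeg_of_isDomain]
    simp
  have halg := htb.isAlgebraic
  -- make the second copy of the polynomial ring into an algebra over the first
  obtain ⟨A, hA, e⟩ : ∃ (A : Type) (hA : CommRing A), Nonempty (MvPolynomial σ ℂ ≃+* A) :=
    ⟨MvPolynomial σ ℂ, inferInstance, ⟨RingEquiv.refl _⟩⟩
  obtain ⟨e⟩ := e
  have : IsDomain A := e.symm.toMulEquiv.isDomain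
  let f : MvPolynomial σ ℂ →+* A := (e : MvPolynomial σ ℂ →+* A).comp (aeval Φ : MvPolynomial σ ℂ →ₐ[ℂ] MvPolynomial σ ℂ).toRingHom
  let : Algebra (MvPolynomial σ ℂ) A := f.toAlgebra
  have hf : ∀ q, algebraMap (MvPolynomial σ ℂ) A q = e (aeval Φ q) := fun q => rfl
  have hinj : Function.Injective (algebraMap (MvPolynomial σ ℂ) A) := by
    intro x y hxy
    rw [hf, hf] at hxy
    exact h (e.injective hxy)
  have hft : Algebra.FiniteType (MvPolynomial σ ℂ) A := by
    have : Fintype σ := Fintype.ofFinite σ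
    refine ⟨⟨Finset.univ.image (fun i => e (X i)), ?_⟩⟩
    rw [eq_top_iff]
    rintro a -
    obtain ⟨q, rfl⟩ := e.surjective a
    induction q using MvPolynomial.induction_on with
    | C c =>
      have : e (C c) = algebraMap (MvPolynomial σ ℂ) A (C c) := by
        rw [hf, algHom_C]; rfl
      rw [this]
      exact Subalgebra.algebraMap_mem _ _
    | add p q hp hq => rw [map_add]; exact add_mem hp hq
    | mul_X p i hp =>
      rw [map_mul]
      exact mul_mem hp (Algebra.subset_adjoin (by simp))
  have halgA : Algebra.IsAlgebraic (MvPolynomial σ ℂ) A := by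
    apply Algebra.IsAlgebraic.ringHom_of_comp_eq (R := Algebra.adjoin ℂ (Set.range Φ))
      (A := MvPolynomial σ ℂ) (h.aevalEquiv.symm : _ →+* MvPolynomial σ ℂ) (e : _ →+* A)
      h.aevalEquiv.symm.injective e.surjective
    ext y
    change e (aeval Φ (h.aevalEquiv.symm y)) = e (y : MvPolynomial σ ℂ)
    congr 1
    have := h.algebraMap_aevalEquiv (h.aevalEquiv.symm y)
    rw [AlgEquiv.apply_symm_apply] at this
    exact this.symm
  obtain ⟨N, P, hP, hmain⟩ := generic_fibre (B := MvPolynomial σ ℂ) (A := A) hinj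
  refine ⟨N, P, hP, fun T hT => ?_⟩
  obtain ⟨hfin, hcard⟩ := hmain ℂ (eval T : MvPolynomial σ ℂ →+* ℂ) hT
  -- bijection between points and homomorphisms
  let g : (A →+* ℂ) → (σ → ℂ) := fun χ i => χ (e (X i))
  have hχ : ∀ χ : A →+* ℂ, χ.comp (algebraMap (MvPolynomial σ ℂ) A) = eval T →
      ∀ q : MvPolynomial σ ℂ, χ (e q) = eval (g χ) q := by
    intro χ h1 q
    have h2 : (χ.comp (e : MvPolynomial σ ℂ →+* A)) = eval (g χ) := by
      apply MvPolynomial.ringHom_ext
      · intro c
        have h3 : e (C c) = algebraMap (MvPolynomial σ ℂ) A (C c) := by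
          rw [hf, algHom_C]; rfl
        rw [RingHom.comp_apply]
        change χ (e (C c)) = _
        rw [h3, ← RingHom.comp_apply, h1, eval_C, eval_C]
      · intro i
        rw [eval_X]
        rfl
    exact congrArg (fun φ : MvPolynomial σ ℂ →+* ℂ => φ q) h2
  have himg : g '' {χ : A →+* ℂ | χ.comp (algebraMap (MvPolynomial σ ℂ) A) = eval T} =
      {v : σ → ℂ | ∀ i, eval v (Φ i) = T i} := by
    ext v
    constructor
    · rintro ⟨χ, h1, rfl⟩
      intro i
      rw [← hχ χ h1]
      have h2 : e (Φ i) = algebraMap (MvPolynomial σ ℂ) A (X i) := by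
        rw [hf, aeval_X]
      rw [h2, ← RingHom.comp_apply, show χ.comp (algebraMap (MvPolynomial σ ℂ) A) = eval T from h1, eval_X]
    · intro hv
      refine ⟨(eval v : MvPolynomial σ ℂ →+* ℂ).comp (e.symm : A →+* MvPolynomial σ ℂ), ?_, ?_⟩
      · change _ = _
        apply MvPolynomial.ringHom_ext
        · intro c
          change eval v (e.symm (algebraMap (MvPolynomial σ ℂ) A (C c))) = _
          rw [hf, RingEquiv.symm_apply_apply, algHom_C, eval_C]
          change eval v (C c) = c
          rw [eval_C]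
        · intro i
          change eval v (e.symm (algebraMap (MvPolynomial σ ℂ) A (X i))) = _
          rw [hf, RingEquiv.symm_apply_apply, aeval_X, eval_X]
          exact hv i
      · funext i
        change eval v (e.symm (e (X i))) = v i
        rw [RingEquiv.symm_apply_apply, eval_X]
  have hginj : Set.InjOn g {χ : A →+* ℂ | χ.comp (algebraMap (MvPolynomial σ ℂ) A) = eval T} := by
    intro χ₁ h₁ χ₂ h₂ h12
    ext a
    obtain ⟨q, rfl⟩ := e.surjective a
    rw [hχ χ₁ h₁, hχ χ₂ h₂, h12]
  rw [← himg]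
  exact ⟨hfin.image g, by rw [hginj.ncard_image, hcard]⟩

end Pool.Agent.Helper52.GenFiber
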