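import Mathlib

set_option autoImplicit false

namespace Pool.Agent.Helper52.RealCrit

/-- The objective function (eight times the squared distance, up to an additive constant). -/
def h (c0 c1 c2 c3 c4 c5 c6 x y z : ℝ) : ℝ :=
  (1 + x ^ 2) * (1 + y ^ 2) * (1 + z ^ 2)
    - 2 * (c0 * x + c1 * y + c2 * z + c3 * (x * y) + c4 * (x * z) + c5 * (y * z) + c6 * (x * y * z))

theorem mul_le_of_abs {a t M : ℝ} (ha : |a| ≤ 1 / 20) (ht : |t| ≤ M) : a * t ≤ M / 20 := by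
  have h1 : a * t ≤ |a * t| := le_abs_self _
  rw [abs_mul] at h1
  have h2 : |a| * |t| ≤ 1 / 20 * M := mul_le_mul ha ht (abs_nonneg _) (by norm_num)
  linarith

theorem abs_le_half (x : ℝ) : |x| ≤ (1 + x ^ 2) / 2 := by
  have : 0 ≤ (1 - |x|) ^ 2 := sq_nonneg _
  have h2 : |x| ^ 2 = x ^ 2 := sq_abs x
  nlinarith

theorem h_lower {c0 c1 c2 c3 c4 c5 c6 : ℝ} (h0 : |c0| ≤ 1 / 20) (h1 : |c1| ≤ 1 / 20)
    (h2 : |c2| ≤ 1 / 20) (h3 : |c3 - 1| ≤ 1 / 20) (h4 : |c4 - 1| ≤ 1 / 20) (h5 : |c5 - 1| ≤ 1 / 20)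
    (h6 : |c6| ≤ 1 / 20) (x y z : ℝ) :
    3 / 4 * ((1 + x ^ 2) * (1 + y ^ 2) * (1 + z ^ 2)) - 2 * (x * y + x * z + y * z) ≤
      h c0 c1 c2 c3 c4 c5 c6 x y z := by
  have X1 : (1 : ℝ) ≤ 1 + x ^ 2 := by nlinarith [sq_nonneg x]
  have Y1 : (1 : ℝ) ≤ 1 + y ^ 2 := by nlinarith [sq_nonneg y]
  have Z1 : (1 : ℝ) ≤ 1 + z ^ 2 := by nlinarith [sq_nonneg z]
  set X := 1 + x ^ 2 with hX
  set Y := 1 + y ^ 2 with hY
  set Z := 1 + z ^ 2 with hZ
  have XY : 1 ≤ X * Y := one_le_mul_of_one_le_of_one_le X1 Y1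
  have XZ : 1 ≤ X * Z := one_le_mul_of_one_le_of_one_le X1 Z1
  have YZ : 1 ≤ Y * Z := one_le_mul_of_one_le_of_one_le Y1 Z1
  have ax : |x| ≤ X * Y * Z / 2 := by
    have := abs_le_half x
    have h' : X ≤ X * (Y * Z) := le_mul_of_one_le_right (by linarith) YZ
    calc |x| ≤ X / 2 := this
      _ ≤ X * Y * Z / 2 := by rw [mul_assoc]; linarith
  have ay : |y| ≤ X * Y * Z / 2 := by
    have := abs_le_half y
    have h' : Y ≤ Y * (X * Z) := le_mul_of_one_le_right (by linarith) XZ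
    calc |y| ≤ Y / 2 := this
      _ ≤ Y * (X * Z) / 2 := by linarith
      _ = X * Y * Z / 2 := by ring
  have az : |z| ≤ X * Y * Z / 2 := by
    have := abs_le_half z
    have h' : Z ≤ Z * (X * Y) := le_mul_of_one_le_right (by linarith) XY
    calc |z| ≤ Z / 2 := this
      _ ≤ Z * (X * Y) / 2 := by linarith
      _ = X * Y * Z / 2 := by ring
  have axy : |x * y| ≤ X * Y * Z / 4 := by
    rw [abs_mul]
    have e1 := mul_le_mul (abs_le_half x) (abs_le_half y) (abs_nonneg _) (by linarith)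
    have h' : X * Y ≤ X * Y * Z := le_mul_of_one_le_right (by linarith) Z1
    calc |x| * |y| ≤ X / 2 * (Y / 2) := e1
      _ = X * Y / 4 := by ring
      _ ≤ X * Y * Z / 4 := by linarith
  have axz : |x * z| ≤ X * Y * Z / 4 := by
    rw [abs_mul]
    have e1 := mul_le_mul (abs_le_half x) (abs_le_half z) (abs_nonneg _) (by linarith)
    have h' : X * Z ≤ X * Z * Y := le_mul_of_one_le_right (by linarith) Y1
    calc |x| * |z| ≤ X / 2 * (Z / 2) := e1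
      _ = X * Z / 4 := by ring
      _ ≤ X * Z * Y / 4 := by linarith
      _ = X * Y * Z / 4 := by ring
  have ayz : |y * z| ≤ X * Y * Z / 4 := by
    rw [abs_mul]
    have e1 := mul_le_mul (abs_le_half y) (abs_le_half z) (abs_nonneg _) (by linarith)
    have h' : Y * Z ≤ Y * Z * X := le_mul_of_one_le_right (by linarith) X1
    calc |y| * |z| ≤ Y / 2 * (Z / 2) := e1
      _ = Y * Z / 4 := by ring
      _ ≤ Y * Z * X / 4 := by linarith
      _ = X * Y * Z / 4 := by ring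
  have axyz : |x * y * z| ≤ X * Y * Z / 8 := by
    rw [abs_mul, abs_mul]
    have e1 := mul_le_mul (abs_le_half x) (abs_le_half y) (abs_nonneg _) (by linarith)
    have e2 := mul_le_mul e1 (abs_le_half z) (abs_nonneg _) (mul_nonneg (by linarith) (by linarith))
    calc |x| * |y| * |z| ≤ X / 2 * (Y / 2) * (Z / 2) := e2
      _ = X * Y * Z / 8 := by ring
  have b0 := mul_le_of_abs h0 ax
  have b1 := mul_le_of_abs h1 ay
  have b2 := mul_le_of_abs h2 az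
  have b3 := mul_le_of_abs h3 axy
  have b4 := mul_le_of_abs h4 axz
  have b5 := mul_le_of_abs h5 ayz
  have b6 := mul_le_of_abs h6 axyz
  have pos : 0 ≤ X * Y * Z := by nlinarith
  unfold h
  nlinarith

theorem h_centre {c0 c1 c2 c3 c4 c5 c6 : ℝ} (h0 : |c0| ≤ 1 / 20) (h1 : |c1| ≤ 1 / 20)
    (h2 : |c2| ≤ 1 / 20) (h3 : |c3 - 1| ≤ 1 / 20) (h4 : |c4 - 1| ≤ 1 / 20) (h5 : |c5 - 1| ≤ 1 / 20)
    (h6 : |c6| ≤ 1 / 20) :
    h c0 c1 c2 c3 c4 c5 c6 (1 / 2) (1 / 2) (1 / 2) < 3 / 4 := by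
  rw [abs_le] at h0 h1 h2 h3 h4 h5 h6
  unfold h
  linarith [h0.1, h1.1, h2.1, h3.1, h4.1, h5.1, h6.1]

theorem quad_local_min {f : ℝ → ℝ} {α β γ x : ℝ} (hf : ∀ t, f t = α * t ^ 2 + β * t + γ)
    (h : IsLocalMin f x) : 2 * α * x + β = 0 := by
  have hder : HasDerivAt (fun t : ℝ => α * t ^ 2 + β * t + γ) (α * (2 * x) + β * 1) x := by
    have hpow : HasDerivAt (fun t : ℝ => t ^ 2) (2 * x) x := by simpa using hasDerivAt_pow 2 x
    exact ((hpow.const_mul α).add ((hasDerivAt_id x).const_mul β)).add_const γ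
  have hf' : f = fun t : ℝ => α * t ^ 2 + β * t + γ := funext hf
  rw [← hf'] at hder
  have := h.hasDerivAt_eq_zero hder
  linarith

theorem crit_pos {c0 c1 c2 c3 c4 c5 c6 : ℝ} (h0 : |c0| ≤ 1 / 20) (h1 : |c1| ≤ 1 / 20)
    (h2 : |c2| ≤ 1 / 20) (h3 : |c3 - 1| ≤ 1 / 20) (h4 : |c4 - 1| ≤ 1 / 20) (h5 : |c5 - 1| ≤ 1 / 20)
    (h6 : |c6| ≤ 1 / 20) :
    ∃ x y z : ℝ, 0 < x + y + z ∧
      x * ((1 + y ^ 2) * (1 + z ^ 2)) = c0 + c3 * y + c4 * z + c6 * (y * z) ∧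
      y * ((1 + x ^ 2) * (1 + z ^ 2)) = c1 + c3 * x + c5 * z + c6 * (x * z) ∧
      z * ((1 + x ^ 2) * (1 + y ^ 2)) = c2 + c4 * x + c5 * y + c6 * (x * y) := by
  let S : Set (ℝ × ℝ × ℝ) := (Set.Icc (-4) 4 ×ˢ (Set.Icc (-4) 4 ×ˢ Set.Icc (-4) 4)) ∩
    {p | 0 ≤ p.1 + p.2.1 + p.2.2}
  have hScomp : IsCompact S := by
    apply IsCompact.inter_right
    · exact isCompact_Icc.prod (isCompact_Icc.prod isCompact_Icc)
    · exact isClosed_le continuous_const (by fun_prop)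
  have hSne : (((1 / 2 : ℝ), (1 / 2 : ℝ), (1 / 2 : ℝ)) : ℝ × ℝ × ℝ) ∈ S := by
    refine ⟨⟨?_, ?_, ?_⟩, ?_⟩ <;> norm_num
  have hcont : Continuous (fun p : ℝ × ℝ × ℝ => h c0 c1 c2 c3 c4 c5 c6 p.1 p.2.1 p.2.2) := by
    unfold h; fun_prop
  obtain ⟨⟨x, y, z⟩, hmemS, hmin⟩ := hScomp.exists_isMinOn ⟨_, hSne⟩ hcont.continuousOn
  have hmin' : ∀ a b c : ℝ, (a, b, c) ∈ S → h c0 c1 c2 c3 c4 c5 c6 x y z ≤ h c0 c1 c2 c3 c4 c5 c6 a b c :=
    fun a b c hm => hmin hm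
  have hval : h c0 c1 c2 c3 c4 c5 c6 x y z < 3 / 4 :=
    lt_of_le_of_lt (hmin' _ _ _ hSne) (h_centre h0 h1 h2 h3 h4 h5 h6)
  have hlow := h_lower h0 h1 h2 h3 h4 h5 h6 x y z
  have hexp : 3 / 4 * (1 + x ^ 2 + y ^ 2 + z ^ 2) - 4 ≤ h c0 c1 c2 c3 c4 c5 c6 x y z := by
    refine le_trans ?_ hlow
    have e1 : 0 ≤ x ^ 2 * y ^ 2 * z ^ 2 := by positivity
    nlinarith [sq_nonneg (3 / 4 * (x * y) - 1), sq_nonneg (3 / 4 * (x * z) - 1),
      sq_nonneg (3 / 4 * (y * z) - 1)]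
  have hx : |x| < 4 := by
    by_contra hh
    push Not at hh
    have : 16 ≤ x ^ 2 := by rw [← sq_abs]; nlinarith
    nlinarith [sq_nonneg y, sq_nonneg z]
  have hy : |y| < 4 := by
    by_contra hh
    push Not at hh
    have : 16 ≤ y ^ 2 := by rw [← sq_abs]; nlinarith
    nlinarith [sq_nonneg x, sq_nonneg z]
  have hz : |z| < 4 := by
    by_contra hh
    push Not at hh
    have : 16 ≤ z ^ 2 := by rw [← sq_abs]; nlinarith
    nlinarith [sq_nonneg x, sq_nonneg y]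
  have hsum0 : 0 ≤ x + y + z := hmemS.2
  have hsum : 0 < x + y + z := by
    rcases hsum0.lt_or_eq with hlt | heq
    · exact hlt
    · exfalso
      have hpl : -2 * (x * y + x * z + y * z) = x ^ 2 + y ^ 2 + z ^ 2 := by
        have : (x + y + z) ^ 2 = 0 := by rw [← heq]; ring
        nlinarith
      have e1 : 1 ≤ (1 + x ^ 2) * (1 + y ^ 2) * (1 + z ^ 2) := by
        have X1 : (1 : ℝ) ≤ 1 + x ^ 2 := by nlinarith [sq_nonneg x]
        have Y1 : (1 : ℝ) ≤ 1 + y ^ 2 := by nlinarith [sq_nonneg y]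
        have Z1 : (1 : ℝ) ≤ 1 + z ^ 2 := by nlinarith [sq_nonneg z]
        exact one_le_mul_of_one_le_of_one_le (one_le_mul_of_one_le_of_one_le X1 Y1) Z1
      nlinarith [sq_nonneg x, sq_nonneg y, sq_nonneg z]
  rw [abs_lt] at hx hy hz
  refine ⟨x, y, z, hsum, ?_, ?_, ?_⟩
  · have hloc : IsLocalMin (fun t => h c0 c1 c2 c3 c4 c5 c6 t y z) x := by
      have hU : {t : ℝ | -4 < t ∧ t < 4 ∧ 0 < t + y + z} ∈ nhds x := by
        apply IsOpen.mem_nhds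
        · exact (isOpen_lt continuous_const continuous_id).inter
            ((isOpen_lt continuous_id continuous_const).inter (isOpen_lt continuous_const (by fun_prop : Continuous (fun t : ℝ => t + y + z))))
        · exact ⟨hx.1, hx.2, hsum⟩
      filter_upwards [hU] with t ht
      exact hmin' t y z ⟨⟨⟨ht.1.le, ht.2.1.le⟩, ⟨hy.1.le, hy.2.le⟩, ⟨hz.1.le, hz.2.le⟩⟩, ht.2.2.le⟩
    have := quad_local_min (α := (1 + y ^ 2) * (1 + z ^ 2)) (β := -2 * (c0 + c3 * y + c4 * z + c6 * (y * z)))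
      (γ := (1 + y ^ 2) * (1 + z ^ 2) - 2 * (c1 * y + c2 * z + c5 * (y * z))) (fun t => by unfold h; ring) hloc
    linarith
  · have hloc : IsLocalMin (fun t => h c0 c1 c2 c3 c4 c5 c6 x t z) y := by
      have hU : {t : ℝ | -4 < t ∧ t < 4 ∧ 0 < x + t + z} ∈ nhds y := by
        apply IsOpen.mem_nhds
        · exact (isOpen_lt continuous_const continuous_id).inter
            ((isOpen_lt continuous_id continuous_const).inter (isOpen_lt continuous_const (by fun_prop : Continuous (fun t : ℝ => x + t + z))))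
        · exact ⟨hy.1, hy.2, hsum⟩
      filter_upwards [hU] with t ht
      exact hmin' x t z ⟨⟨⟨hx.1.le, hx.2.le⟩, ⟨ht.1.le, ht.2.1.le⟩, ⟨hz.1.le, hz.2.le⟩⟩, ht.2.2.le⟩
    have := quad_local_min (α := (1 + x ^ 2) * (1 + z ^ 2)) (β := -2 * (c1 + c3 * x + c5 * z + c6 * (x * z)))
      (γ := (1 + x ^ 2) * (1 + z ^ 2) - 2 * (c0 * x + c2 * z + c4 * (x * z))) (fun t => by unfold h; ring) hloc
    linarith
  · have hloc : IsLocalMin (fun t => h c0 c1 c2 c3 c4 c5 c6 x y t) z := by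
      have hU : {t : ℝ | -4 < t ∧ t < 4 ∧ 0 < x + y + t} ∈ nhds z := by
        apply IsOpen.mem_nhds
        · exact (isOpen_lt continuous_const continuous_id).inter
            ((isOpen_lt continuous_id continuous_const).inter (isOpen_lt continuous_const (by fun_prop : Continuous (fun t : ℝ => x + y + t))))
        · exact ⟨hz.1, hz.2, hsum⟩
      filter_upwards [hU] with t ht
      exact hmin' x y t ⟨⟨⟨hx.1.le, hx.2.le⟩, ⟨hy.1.le, hy.2.le⟩, ⟨ht.1.le, ht.2.1.le⟩⟩, ht.2.2.le⟩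
    have := quad_local_min (α := (1 + x ^ 2) * (1 + y ^ 2)) (β := -2 * (c2 + c4 * x + c5 * y + c6 * (x * y)))
      (γ := (1 + x ^ 2) * (1 + y ^ 2) - 2 * (c0 * x + c1 * y + c3 * (x * y))) (fun t => by unfold h; ring) hloc
    linarith

theorem crit_neg {c0 c1 c2 c3 c4 c5 c6 : ℝ} (h0 : |c0| ≤ 1 / 20) (h1 : |c1| ≤ 1 / 20)
    (h2 : |c2| ≤ 1 / 20) (h3 : |c3 - 1| ≤ 1 / 20) (h4 : |c4 - 1| ≤ 1 / 20) (h5 : |c5 - 1| ≤ 1 / 20)
    (h6 : |c6| ≤ 1 / 20) :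
    ∃ x y z : ℝ, x + y + z < 0 ∧
      x * ((1 + y ^ 2) * (1 + z ^ 2)) = c0 + c3 * y + c4 * z + c6 * (y * z) ∧
      y * ((1 + x ^ 2) * (1 + z ^ 2)) = c1 + c3 * x + c5 * z + c6 * (x * z) ∧
      z * ((1 + x ^ 2) * (1 + y ^ 2)) = c2 + c4 * x + c5 * y + c6 * (x * y) := by
  obtain ⟨x, y, z, hs, e1, e2, e3⟩ := crit_pos (c0 := -c0) (c1 := -c1) (c2 := -c2) (c3 := c3)
    (c4 := c4) (c5 := c5) (c6 := -c6) (by rwa [abs_neg]) (by rwa [abs_neg]) (by rwa [abs_neg])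
    h3 h4 h5 (by rwa [abs_neg])
  exact ⟨-x, -y, -z, by linarith, by linear_combination -e1, by linear_combination -e2,
    by linear_combination -e3⟩

end Pool.Agent.Helper52.RealCrit
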