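import Mathlib
import Pool.Agent.Helper52.GenFiber2
import Pool.Agent.Helper52.RealCrit

set_option autoImplicit false

open MvPolynomial

namespace Pool.Agent.Helper52.CritFiber

/-- Signs: `+1` at `0`, `-1` at `1`. -/
def sg : Fin 2 → ℂ := ![1, -1]

theorem sum_fun (f : (Fin 3 → Fin 2) → ℂ) : ∑ I, f I =
    f ![0,0,0] + f ![0,0,1] + f ![0,1,0] + f ![0,1,1] + f ![1,0,0] + f ![1,0,1] + f ![1,1,0] + f ![1,1,1] := by
  have h : (Finset.univ : Finset (Fin 3 → Fin 2)) =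
    {![0,0,0], ![0,0,1], ![0,1,0], ![0,1,1], ![1,0,0], ![1,0,1], ![1,1,0], ![1,1,1]} := by decide
  rw [h]
  rw [Finset.sum_insert (by decide), Finset.sum_insert (by decide), Finset.sum_insert (by decide),
    Finset.sum_insert (by decide), Finset.sum_insert (by decide), Finset.sum_insert (by decide),
    Finset.sum_insert (by decide), Finset.sum_singleton]
  ring

theorem tangent_eq (b a : (k : Fin 3) → Fin 2 → ℂ) (I : Fin 3 → Fin 2) :
    (∑ k : Fin 3, b k (I k) * ∏ j ∈ Finset.univ.erase k, a j (I j)) =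
      b 0 (I 0) * (a 1 (I 1) * a 2 (I 2)) + b 1 (I 1) * (a 0 (I 0) * a 2 (I 2)) +
        b 2 (I 2) * (a 0 (I 0) * a 1 (I 1)) := by
  rw [Fin.sum_univ_three]
  have h0 : (Finset.univ : Finset (Fin 3)).erase 0 = {1, 2} := by decide
  have h1 : (Finset.univ : Finset (Fin 3)).erase 1 = {0, 2} := by decide
  have h2 : (Finset.univ : Finset (Fin 3)).erase 2 = {0, 1} := by decide
  rw [h0, h1, h2]
  rw [Finset.prod_pair (by decide), Finset.prod_pair (by decide), Finset.prod_pair (by decide)]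

/-- The critical set, exactly as in the frozen statement, for format `2 × 2 × 2`. -/
def Crit (T : (Fin 3 → Fin 2) → ℂ) : Set ((Fin 3 → Fin 2) → ℂ) :=
  {x | (∑ I : Fin 3 → Fin 2, x I) = 1 ∧ ∃ a : (k : Fin 3) → Fin 2 → ℂ,
        (∀ I : Fin 3 → Fin 2, x I = ∏ k : Fin 3, a k (I k)) ∧
        ∀ b : (k : Fin 3) → Fin 2 → ℂ,
          (∑ I : Fin 3 → Fin 2,
              (∑ k : Fin 3, b k (I k) * ∏ j ∈ Finset.univ.erase k, a j (I j))) = 0 →
          (∑ I : Fin 3 → Fin 2, (x I - T I) *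
              (∑ k : Fin 3, b k (I k) * ∏ j ∈ Finset.univ.erase k, a j (I j))) = 0}

/-- The rank-one tensor of entry sum one with parameters `x y z`. -/
noncomputable def tens (x y z : ℂ) : (Fin 3 → Fin 2) → ℂ := fun I =>
  (1 + sg (I 0) * x) / 2 * ((1 + sg (I 1) * y) / 2) * ((1 + sg (I 2) * z) / 2)

/-- The seven coordinates of `T` that matter. -/
noncomputable def Lam (T : (Fin 3 → Fin 2) → ℂ) : Fin 7 → ℂ :=
  ![∑ I, T I * sg (I 0), ∑ I, T I * sg (I 1), ∑ I, T I * sg (I 2),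
    ∑ I, T I * (sg (I 0) * sg (I 1)), ∑ I, T I * (sg (I 0) * sg (I 2)),
    ∑ I, T I * (sg (I 1) * sg (I 2)), ∑ I, T I * (sg (I 0) * sg (I 1) * sg (I 2))]

theorem Lam0 (T : (Fin 3 → Fin 2) → ℂ) : Lam T 0 = ∑ I, T I * sg (I 0) := rfl
theorem Lam1 (T : (Fin 3 → Fin 2) → ℂ) : Lam T 1 = ∑ I, T I * sg (I 1) := rfl
theorem Lam2 (T : (Fin 3 → Fin 2) → ℂ) : Lam T 2 = ∑ I, T I * sg (I 2) := rfl
theorem Lam3 (T : (Fin 3 → Fin 2) → ℂ) : Lam T 3 = ∑ I, T I * (sg (I 0) * sg (I 1)) := rfl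
theorem Lam4 (T : (Fin 3 → Fin 2) → ℂ) : Lam T 4 = ∑ I, T I * (sg (I 0) * sg (I 2)) := rfl
theorem Lam5 (T : (Fin 3 → Fin 2) → ℂ) : Lam T 5 = ∑ I, T I * (sg (I 1) * sg (I 2)) := rfl
theorem Lam6 (T : (Fin 3 → Fin 2) → ℂ) : Lam T 6 = ∑ I, T I * (sg (I 0) * sg (I 1) * sg (I 2)) := rfl

theorem v0 (i j k : Fin 2) : (![i, j, k] : Fin 3 → Fin 2) 0 = i := rfl
theorem v1 (i j k : Fin 2) : (![i, j, k] : Fin 3 → Fin 2) 1 = j := rfl
theorem v2 (i j k : Fin 2) : (![i, j, k] : Fin 3 → Fin 2) 2 = k := rfl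
theorem w0 (i j k : Fin 2 → ℂ) : (![i, j, k] : Fin 3 → Fin 2 → ℂ) 0 = i := rfl
theorem w1 (i j k : Fin 2 → ℂ) : (![i, j, k] : Fin 3 → Fin 2 → ℂ) 1 = j := rfl
theorem w2 (i j k : Fin 2 → ℂ) : (![i, j, k] : Fin 3 → Fin 2 → ℂ) 2 = k := rfl

/-- The critical equations in coordinates. -/
def Eqs (c : Fin 7 → ℂ) (x y z : ℂ) : Prop :=
  x * ((1 + y ^ 2) * (1 + z ^ 2)) = c 0 + c 3 * y + c 4 * z + c 6 * (y * z) ∧
  y * ((1 + x ^ 2) * (1 + z ^ 2)) = c 1 + c 3 * x + c 5 * z + c 6 * (x * z) ∧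
  z * ((1 + x ^ 2) * (1 + y ^ 2)) = c 2 + c 4 * x + c 5 * y + c 6 * (x * y)

theorem sg0 : sg 0 = 1 := rfl
theorem sg1 : sg 1 = -1 := rfl

theorem tens_sum (x y z : ℂ) : ∑ I, tens x y z I = 1 := by
  rw [sum_fun]
  simp only [tens, Matrix.cons_val_zero, Matrix.cons_val_one, Matrix.cons_val, sg0, sg1]
  ring

/-- Every element of the critical set is one of the `tens x y z` satisfying the equations. -/
theorem crit_imp {T x : (Fin 3 → Fin 2) → ℂ} (hx : x ∈ Crit T) :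
    ∃ u v w : ℂ, x = tens u v w ∧ Eqs (Lam T) u v w := by
  obtain ⟨hsum, a, hxa, hcrit⟩ := hx
  have hxa' : ∀ I, x I = a 0 (I 0) * a 1 (I 1) * a 2 (I 2) := by
    intro I; rw [hxa I, Fin.prod_univ_three]
  have hprod : (a 0 0 + a 0 1) * (a 1 0 + a 1 1) * (a 2 0 + a 2 1) = 1 := by
    rw [← hsum, sum_fun]
    simp only [hxa', Matrix.cons_val_zero, Matrix.cons_val_one, Matrix.cons_val]
    ring
  set s0 := a 0 0 + a 0 1 with hs0
  set s1 := a 1 0 + a 1 1 with hs1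
  set s2 := a 2 0 + a 2 1 with hs2
  have n0 : s0 ≠ 0 := by rintro h; rw [h] at hprod; simp at hprod
  have n1 : s1 ≠ 0 := by rintro h; rw [h] at hprod; simp at hprod
  have n2 : s2 ≠ 0 := by rintro h; rw [h] at hprod; simp at hprod
  obtain ⟨u, hu⟩ : ∃ u : ℂ, s0 * u = a 0 0 - a 0 1 := ⟨(a 0 0 - a 0 1) / s0, by field_simp⟩
  obtain ⟨v, hv⟩ : ∃ v : ℂ, s1 * v = a 1 0 - a 1 1 := ⟨(a 1 0 - a 1 1) / s1, by field_simp⟩
  obtain ⟨w, hw⟩ : ∃ w : ℂ, s2 * w = a 2 0 - a 2 1 := ⟨(a 2 0 - a 2 1) / s2, by field_simp⟩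
  have ha0 : ∀ i, a 0 i = s0 * ((1 + sg i * u) / 2) := by
    intro i
    fin_cases i
    · simp only [Fin.zero_eta, sg0]
      linear_combination (-1/2) * hu - (1/2) * hs0
    · simp only [Fin.mk_one, sg1]
      linear_combination (1/2) * hu - (1/2) * hs0
  have ha1 : ∀ i, a 1 i = s1 * ((1 + sg i * v) / 2) := by
    intro i
    fin_cases i
    · simp only [Fin.zero_eta, sg0]
      linear_combination (-1/2) * hv - (1/2) * hs1
    · simp only [Fin.mk_one, sg1]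
      linear_combination (1/2) * hv - (1/2) * hs1
  have ha2 : ∀ i, a 2 i = s2 * ((1 + sg i * w) / 2) := by
    intro i
    fin_cases i
    · simp only [Fin.zero_eta, sg0]
      linear_combination (-1/2) * hw - (1/2) * hs2
    · simp only [Fin.mk_one, sg1]
      linear_combination (1/2) * hw - (1/2) * hs2
  have hxt : x = tens u v w := by
    funext I
    rw [hxa' I, ha0, ha1, ha2, tens]
    linear_combination ((1 + sg (I 0) * u) / 2 * ((1 + sg (I 1) * v) / 2) * ((1 + sg (I 2) * w) / 2)) * hprod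
  have key : ∀ b : Fin 3 → Fin 2 → ℂ,
      (∑ I : Fin 3 → Fin 2, (b 0 (I 0) * (a 1 (I 1) * a 2 (I 2)) + b 1 (I 1) * (a 0 (I 0) * a 2 (I 2)) +
        b 2 (I 2) * (a 0 (I 0) * a 1 (I 1)))) = 0 →
      (∑ I : Fin 3 → Fin 2, (x I - T I) * (b 0 (I 0) * (a 1 (I 1) * a 2 (I 2)) + b 1 (I 1) * (a 0 (I 0) * a 2 (I 2)) +
        b 2 (I 2) * (a 0 (I 0) * a 1 (I 1)))) = 0 := by
    intro b hb
    have := hcrit b (by simpa only [tangent_eq] using hb)
    simpa only [tangent_eq] using this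
  refine ⟨u, v, w, hxt, ?_, ?_, ?_⟩
  · have h1 := key ![sg, 0, 0] (by
      rw [sum_fun]
      simp only [w0, w1, w2, v0, v1, v2, sg0, sg1, Pi.zero_apply]
      ring)
    rw [sum_fun] at h1
    simp only [hxt, ha1, ha2, tens, w0, w1, w2, v0, v1, v2, sg0, sg1, Pi.zero_apply] at h1
    rw [Lam0, Lam3, Lam4, Lam6, sum_fun, sum_fun, sum_fun, sum_fun]
    simp only [v0, v1, v2, sg0, sg1]
    generalize T ![0,0,0] = t0 at *
    generalize T ![0,0,1] = t1 at *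
    generalize T ![0,1,0] = t2 at *
    generalize T ![0,1,1] = t3 at *
    generalize T ![1,0,0] = t4 at *
    generalize T ![1,0,1] = t5 at *
    generalize T ![1,1,0] = t6 at *
    generalize T ![1,1,1] = t7 at *
    have h2 : (4 * s0) * (s1 * s2) * ((1 / 4) * (u * ((1 + v ^ 2) * (1 + w ^ 2)) - ((t0+t1+t2+t3-t4-t5-t6-t7) + (t0+t1-t2-t3-t4-t5+t6+t7) * v
      + (t0-t1+t2-t3-t4+t5-t6+t7) * w + (t0-t1-t2+t3-t4+t5+t6-t7) * (v * w)))) = 0 := by
      linear_combination (4 * s0) * h1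
    linear_combination h2 - (u * ((1 + v ^ 2) * (1 + w ^ 2)) - ((t0+t1+t2+t3-t4-t5-t6-t7) + (t0+t1-t2-t3-t4-t5+t6+t7) * v
      + (t0-t1+t2-t3-t4+t5-t6+t7) * w + (t0-t1-t2+t3-t4+t5+t6-t7) * (v * w))) * hprod
  · have h1 := key ![0, sg, 0] (by
      rw [sum_fun]
      simp only [w0, w1, w2, v0, v1, v2, sg0, sg1, Pi.zero_apply]
      ring)
    rw [sum_fun] at h1
    simp only [hxt, ha0, ha2, tens, w0, w1, w2, v0, v1, v2, sg0, sg1, Pi.zero_apply] at h1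
    rw [Lam1, Lam3, Lam5, Lam6, sum_fun, sum_fun, sum_fun, sum_fun]
    simp only [v0, v1, v2, sg0, sg1]
    generalize T ![0,0,0] = t0 at *
    generalize T ![0,0,1] = t1 at *
    generalize T ![0,1,0] = t2 at *
    generalize T ![0,1,1] = t3 at *
    generalize T ![1,0,0] = t4 at *
    generalize T ![1,0,1] = t5 at *
    generalize T ![1,1,0] = t6 at *
    generalize T ![1,1,1] = t7 at *
    have h2 : (4 * s1) * (s0 * s2) * ((1 / 4) * (v * ((1 + u ^ 2) * (1 + w ^ 2)) - ((t0+t1-t2-t3+t4+t5-t6-t7) + (t0+t1-t2-t3-t4-t5+t6+t7) * u + (t0-t1-t2+t3+t4-t5-t6+t7) * w + (t0-t1-t2+t3-t4+t5+t6-t7) * (u * w)))) = 0 := by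
      linear_combination (4 * s1) * h1
    linear_combination h2 - (v * ((1 + u ^ 2) * (1 + w ^ 2)) - ((t0+t1-t2-t3+t4+t5-t6-t7) + (t0+t1-t2-t3-t4-t5+t6+t7) * u + (t0-t1-t2+t3+t4-t5-t6+t7) * w + (t0-t1-t2+t3-t4+t5+t6-t7) * (u * w))) * hprod
  · have h1 := key ![0, 0, sg] (by
      rw [sum_fun]
      simp only [w0, w1, w2, v0, v1, v2, sg0, sg1, Pi.zero_apply]
      ring)
    rw [sum_fun] at h1
    simp only [hxt, ha0, ha1, tens, w0, w1, w2, v0, v1, v2, sg0, sg1, Pi.zero_apply] at h1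
    rw [Lam2, Lam4, Lam5, Lam6, sum_fun, sum_fun, sum_fun, sum_fun]
    simp only [v0, v1, v2, sg0, sg1]
    generalize T ![0,0,0] = t0 at *
    generalize T ![0,0,1] = t1 at *
    generalize T ![0,1,0] = t2 at *
    generalize T ![0,1,1] = t3 at *
    generalize T ![1,0,0] = t4 at *
    generalize T ![1,0,1] = t5 at *
    generalize T ![1,1,0] = t6 at *
    generalize T ![1,1,1] = t7 at *
    have h2 : (4 * s2) * (s0 * s1) * ((1 / 4) * (w * ((1 + u ^ 2) * (1 + v ^ 2)) - ((t0-t1+t2-t3+t4-t5+t6-t7) + (t0-t1+t2-t3-t4+t5-t6+t7) * u + (t0-t1-t2+t3+t4-t5-t6+t7) * v + (t0-t1-t2+t3-t4+t5+t6-t7) * (u * v)))) = 0 := by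
      linear_combination (4 * s2) * h1
    linear_combination h2 - (w * ((1 + u ^ 2) * (1 + v ^ 2)) - ((t0-t1+t2-t3+t4-t5+t6-t7) + (t0-t1+t2-t3-t4+t5-t6+t7) * u + (t0-t1-t2+t3+t4-t5-t6+t7) * v + (t0-t1-t2+t3-t4+t5+t6-t7) * (u * v))) * hprod

/-- Conversely every solution of the equations is a critical point. -/
theorem crit_of_eqs {T : (Fin 3 → Fin 2) → ℂ} {u v w : ℂ} (h : Eqs (Lam T) u v w) :
    tens u v w ∈ Crit T := by
  obtain ⟨h1, h2, h3⟩ := h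
  rw [Lam0, Lam3, Lam4, Lam6, sum_fun, sum_fun, sum_fun, sum_fun] at h1
  rw [Lam1, Lam3, Lam5, Lam6, sum_fun, sum_fun, sum_fun, sum_fun] at h2
  rw [Lam2, Lam4, Lam5, Lam6, sum_fun, sum_fun, sum_fun, sum_fun] at h3
  simp only [v0, v1, v2, sg0, sg1] at h1 h2 h3
  refine ⟨tens_sum u v w, ![fun i => (1 + sg i * u) / 2, fun i => (1 + sg i * v) / 2,
    fun i => (1 + sg i * w) / 2], ?_, ?_⟩
  · intro I
    rw [Fin.prod_univ_three]
    rfl
  · intro b hb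
    simp only [tangent_eq] at hb ⊢
    rw [sum_fun] at hb ⊢
    simp only [tens, w0, w1, w2, v0, v1, v2, sg0, sg1] at hb ⊢
    generalize b 0 0 = b00 at *
    generalize b 0 1 = b01 at *
    generalize b 1 0 = b10 at *
    generalize b 1 1 = b11 at *
    generalize b 2 0 = b20 at *
    generalize b 2 1 = b21 at *
    generalize T ![0,0,0] = t0 at *
    generalize T ![0,0,1] = t1 at *
    generalize T ![0,1,0] = t2 at *
    generalize T ![0,1,1] = t3 at *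
    generalize T ![1,0,0] = t4 at *
    generalize T ![1,0,1] = t5 at *
    generalize T ![1,1,0] = t6 at *
    generalize T ![1,1,1] = t7 at *
    have hb' : (b00 + b01) + (b10 + b11) + (b20 + b21) = 0 := by
      linear_combination hb
    linear_combination ((1 + u ^ 2) * (1 + v ^ 2) * (1 + w ^ 2) / 8 - (t0 * (((1 + u) / 2) * ((1 + v) / 2) * ((1 + w) / 2)) + t1 * (((1 + u) / 2) * ((1 + v) / 2) * ((1 - w) / 2)) + t2 * (((1 + u) / 2) * ((1 - v) / 2) * ((1 + w) / 2)) + t3 * (((1 + u) / 2) * ((1 - v) / 2) * ((1 - w) / 2)) + t4 * (((1 - u) / 2) * ((1 + v) / 2) * ((1 + w) / 2)) + t5 * (((1 - u) / 2) * ((1 + v) / 2) * ((1 - w) / 2)) + t6 * (((1 - u) / 2) * ((1 - v) / 2) * ((1 + w) / 2)) + t7 * (((1 - u) / 2) * ((1 - v) / 2) * ((1 - w) / 2)))) * hb' + (((b00 - b01) / 2 - (b00 + b01) * u / 2) / 4) * h1 +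
      (((b10 - b11) / 2 - (b10 + b11) * v / 2) / 4) * h2 + (((b20 - b21) / 2 - (b20 + b21) * w / 2) / 4) * h3

theorem tens_inj {x y z x' y' z' : ℂ} (h : tens x y z = tens x' y' z') : x = x' ∧ y = y' ∧ z = z' := by
  have e1 : ∀ x y z : ℂ, ∑ I, tens x y z I * sg (I 0) = x := by
    intro x y z
    rw [sum_fun]
    simp only [tens, v0, v1, v2, sg0, sg1]
    ring
  have e2 : ∀ x y z : ℂ, ∑ I, tens x y z I * sg (I 1) = y := by
    intro x y z
    rw [sum_fun]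
    simp only [tens, v0, v1, v2, sg0, sg1]
    ring
  have e3 : ∀ x y z : ℂ, ∑ I, tens x y z I * sg (I 2) = z := by
    intro x y z
    rw [sum_fun]
    simp only [tens, v0, v1, v2, sg0, sg1]
    ring
  exact ⟨by rw [← e1 x y z, ← e1 x' y' z', h], by rw [← e2 x y z, ← e2 x' y' z', h],
    by rw [← e3 x y z, ← e3 x' y' z', h]⟩

/-- The parametrisation of the incidence variety. -/
noncomputable def Phi : Fin 7 → MvPolynomial (Fin 7) ℂ :=
  ![X 0 * ((1 + X 1 ^ 2) * (1 + X 2 ^ 2)) - X 3 * X 1 - X 4 * X 2 - X 6 * (X 1 * X 2),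
    X 1 * ((1 + X 0 ^ 2) * (1 + X 2 ^ 2)) - X 3 * X 0 - X 5 * X 2 - X 6 * (X 0 * X 2),
    X 2 * ((1 + X 0 ^ 2) * (1 + X 1 ^ 2)) - X 4 * X 0 - X 5 * X 1 - X 6 * (X 0 * X 1),
    X 3, X 4, X 5, X 6]

theorem eval_Phi (v c : Fin 7 → ℂ) : (∀ i, eval v (Phi i) = c i) ↔
    (v 3 = c 3 ∧ v 4 = c 4 ∧ v 5 = c 5 ∧ v 6 = c 6 ∧ Eqs c (v 0) (v 1) (v 2)) := by
  constructor
  · intro h
    have h0 := h 0
    have h1 := h 1
    have h2 := h 2
    have h3 := h 3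
    have h4 := h 4
    have h5 := h 5
    have h6 := h 6
    simp [Phi] at h0 h1 h2 h3 h4 h5 h6
    refine ⟨h3, h4, h5, h6, ?_, ?_, ?_⟩
    · rw [← h3, ← h4, ← h6, ← h0]; ring
    · rw [← h3, ← h5, ← h6, ← h1]; ring
    · rw [← h4, ← h5, ← h6, ← h2]; ring
  · rintro ⟨h3, h4, h5, h6, e1, e2, e3⟩ i
    rw [← h3, ← h4, ← h6] at e1
    rw [← h3, ← h5, ← h6] at e2
    rw [← h4, ← h5, ← h6] at e3
    fin_cases i
    · simp [Phi]; linear_combination e1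
    · simp [Phi]; linear_combination e2
    · simp [Phi]; linear_combination e3
    · simpa [Phi] using h3
    · simpa [Phi] using h4
    · simpa [Phi] using h5
    · simpa [Phi] using h6

/-- centre of the box -/
noncomputable def ctr : Fin 7 → ℝ := ![0, 0, 0, 153/160, 153/160, 153/160, 0]

/-- the real box -/
def InBox (c : Fin 7 → ℝ) : Prop := ∀ i, |c i - ctr i| ≤ 1 / 160

theorem box_bounds {c : Fin 7 → ℝ} (h : InBox c) :
    |c 0| ≤ 1 / 160 ∧ |c 1| ≤ 1 / 160 ∧ |c 2| ≤ 1 / 160 ∧ |c 3 - 153/160| ≤ 1 / 160 ∧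
    |c 4 - 153/160| ≤ 1 / 160 ∧ |c 5 - 153/160| ≤ 1 / 160 ∧ |c 6| ≤ 1 / 160 := by
  refine ⟨?_, ?_, ?_, ?_, ?_, ?_, ?_⟩
  · simpa [ctr] using h 0
  · simpa [ctr] using h 1
  · simpa [ctr] using h 2
  · simpa [ctr] using h 3
  · simpa [ctr] using h 4
  · simpa [ctr] using h 5
  · simpa [ctr] using h 6

theorem eqs_real {c : Fin 7 → ℝ} {x y z : ℝ}
    (e1 : x * ((1 + y ^ 2) * (1 + z ^ 2)) = c 0 + c 3 * y + c 4 * z + c 6 * (y * z))
    (e2 : y * ((1 + x ^ 2) * (1 + z ^ 2)) = c 1 + c 3 * x + c 5 * z + c 6 * (x * z))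
    (e3 : z * ((1 + x ^ 2) * (1 + y ^ 2)) = c 2 + c 4 * x + c 5 * y + c 6 * (x * y)) :
    Eqs (fun i => (c i : ℂ)) (x : ℂ) (y : ℂ) (z : ℂ) := by
  refine ⟨?_, ?_, ?_⟩
  · have := congrArg (fun t : ℝ => (t : ℂ)) e1
    push_cast at this
    exact this
  · have := congrArg (fun t : ℝ => (t : ℂ)) e2
    push_cast at this
    exact this
  · have := congrArg (fun t : ℝ => (t : ℂ)) e3
    push_cast at this
    exact this

theorem exists_two_real {c : Fin 7 → ℝ} (h : InBox c) :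
    (∃ x y z : ℝ, 0 < x + y + z ∧ Eqs (fun i => (c i : ℂ)) (x : ℂ) (y : ℂ) (z : ℂ)) ∧
    (∃ x y z : ℝ, x + y + z < 0 ∧ Eqs (fun i => (c i : ℂ)) (x : ℂ) (y : ℂ) (z : ℂ)) := by
  obtain ⟨h0, h1, h2, h3, h4, h5, h6⟩ := box_bounds h
  have g0 : |c 0| ≤ 1 / 20 := by linarith
  have g1 : |c 1| ≤ 1 / 20 := by linarith
  have g2 : |c 2| ≤ 1 / 20 := by linarith
  have g3 : |c 3 - 1| ≤ 1 / 20 := by
    rw [abs_le] at h3 ⊢; constructor <;> linarith [h3.1, h3.2]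
  have g4 : |c 4 - 1| ≤ 1 / 20 := by
    rw [abs_le] at h4 ⊢; constructor <;> linarith [h4.1, h4.2]
  have g5 : |c 5 - 1| ≤ 1 / 20 := by
    rw [abs_le] at h5 ⊢; constructor <;> linarith [h5.1, h5.2]
  have g6 : |c 6| ≤ 1 / 20 := by linarith
  constructor
  · obtain ⟨x, y, z, hs, e1, e2, e3⟩ := RealCrit.crit_pos g0 g1 g2 g3 g4 g5 g6
    exact ⟨x, y, z, hs, eqs_real e1 e2 e3⟩
  · obtain ⟨x, y, z, hs, e1, e2, e3⟩ := RealCrit.crit_neg g0 g1 g2 g3 g4 g5 g6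
    exact ⟨x, y, z, hs, eqs_real e1 e2 e3⟩

/-- A nonzero polynomial does not vanish at all (real) points of the box. -/
theorem exists_box_ne_zero {Q : MvPolynomial (Fin 7) ℂ} (hQ : Q ≠ 0) :
    ∃ c : Fin 7 → ℝ, InBox c ∧ eval (fun i => (c i : ℂ)) Q ≠ 0 := by
  by_contra hcon
  push Not at hcon
  apply hQ
  apply MvPolynomial.funext_set (fun i => (fun t : ℝ => (t : ℂ)) '' Set.Icc (ctr i - 1/160) (ctr i + 1/160))
  · intro i
    apply Set.Infinite.image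
    · exact Complex.ofReal_injective.injOn
    · exact Set.Icc_infinite (by linarith)
  · intro x hx
    rw [map_zero]
    have hx' : ∀ i, ∃ t : ℝ, t ∈ Set.Icc (ctr i - 1/160) (ctr i + 1/160) ∧ (t : ℂ) = x i := by
      intro i
      exact hx i (Set.mem_univ i)
    choose c hc hcx using hx'
    have : x = fun i => (c i : ℂ) := funext (fun i => (hcx i).symm)
    rw [this]
    apply hcon
    intro i
    rw [abs_le]
    constructor <;> linarith [(hc i).1, (hc i).2]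

theorem eval_aeval' {σ τ : Type} (v : τ → ℂ) (F : σ → MvPolynomial τ ℂ) (Q : MvPolynomial σ ℂ) :
    eval v (aeval F Q) = eval (fun i => eval v (F i)) Q := by
  induction Q using MvPolynomial.induction_on with
  | C a => simp
  | add p q hp hq => rw [map_add, map_add, map_add, hp, hq]
  | mul_X p i hp => rw [map_mul, map_mul, map_mul, hp, aeval_X, eval_X]

theorem Phi_algebraicIndependent : AlgebraicIndependent ℂ Phi := by
  rw [algebraicIndependent_iff]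
  intro Q hQ
  by_contra hne
  obtain ⟨c, hc, hev⟩ := exists_box_ne_zero hne
  obtain ⟨⟨x, y, z, -, he⟩, -⟩ := exists_two_real hc
  apply hev
  let v : Fin 7 → ℂ := ![x, y, z, c 3, c 4, c 5, c 6]
  have hv : ∀ i, eval v (Phi i) = (c i : ℂ) := by
    have := (eval_Phi v (fun i => (c i : ℂ))).mpr ⟨rfl, rfl, rfl, rfl, he⟩
    exact this
  have h1 : eval v (aeval Phi Q) = 0 := by rw [hQ, map_zero]
  have h2 : eval v (aeval Phi Q) = eval (fun i => eval v (Phi i)) Q := eval_aeval' v Phi Q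
  rw [h2] at h1
  simpa only [hv] using h1

/-- The critical set is in bijection with a fibre of `Phi`. -/
theorem crit_card {c : Fin 7 → ℂ} {T : (Fin 3 → Fin 2) → ℂ} (hc : Lam T = c)
    (hfin : {v : Fin 7 → ℂ | ∀ i, eval v (Phi i) = c i}.Finite) :
    (Crit T).Finite ∧ (Crit T).ncard = {v : Fin 7 → ℂ | ∀ i, eval v (Phi i) = c i}.ncard := by
  have himg : (fun v : Fin 7 → ℂ => tens (v 0) (v 1) (v 2)) '' {v : Fin 7 → ℂ | ∀ i, eval v (Phi i) = c i} =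
      Crit T := by
    ext x
    constructor
    · rintro ⟨v, hv, rfl⟩
      obtain ⟨-, -, -, -, he⟩ := (eval_Phi v c).mp hv
      apply crit_of_eqs
      rw [hc]
      exact he
    · intro hx
      obtain ⟨u, v, w, rfl, he⟩ := crit_imp hx
      rw [hc] at he
      refine ⟨![u, v, w, c 3, c 4, c 5, c 6], ?_, rfl⟩
      exact (eval_Phi _ c).mpr ⟨rfl, rfl, rfl, rfl, he⟩
  have hinj : Set.InjOn (fun v : Fin 7 → ℂ => tens (v 0) (v 1) (v 2))
      {v : Fin 7 → ℂ | ∀ i, eval v (Phi i) = c i} := by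
    intro v hv v' hv' hvv
    obtain ⟨a3, a4, a5, a6, -⟩ := (eval_Phi v c).mp hv
    obtain ⟨b3, b4, b5, b6, -⟩ := (eval_Phi v' c).mp hv'
    obtain ⟨c0, c1, c2⟩ := tens_inj hvv
    funext i
    fin_cases i
    · exact c0
    · exact c1
    · exact c2
    · exact a3.trans b3.symm
    · exact a4.trans b4.symm
    · exact a5.trans b5.symm
    · exact a6.trans b6.symm
  rw [← himg]
  exact ⟨hfin.image _, hinj.ncard_image⟩

/-- `Lam` as polynomials in the entries. -/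
noncomputable def LamP : Fin 7 → MvPolynomial (Fin 3 → Fin 2) ℂ :=
  ![∑ I, X I * C (sg (I 0)), ∑ I, X I * C (sg (I 1)), ∑ I, X I * C (sg (I 2)),
    ∑ I, X I * C (sg (I 0) * sg (I 1)), ∑ I, X I * C (sg (I 0) * sg (I 2)),
    ∑ I, X I * C (sg (I 1) * sg (I 2)), ∑ I, X I * C (sg (I 0) * sg (I 1) * sg (I 2))]

theorem eval_LamP (T : (Fin 3 → Fin 2) → ℂ) (i : Fin 7) : eval T (LamP i) = Lam T i := by
  fin_cases i <;> simp [LamP, Lam]

/-- real signs -/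
def sgr : Fin 2 → ℝ := ![1, -1]

theorem sgr0 : sgr 0 = 1 := rfl
theorem sgr1 : sgr 1 = -1 := rfl

/-- the real tensor with entry sum one and prescribed coordinates -/
noncomputable def Tc (c : Fin 7 → ℝ) : (Fin 3 → Fin 2) → ℝ := fun I =>
  (1 + c 0 * sgr (I 0) + c 1 * sgr (I 1) + c 2 * sgr (I 2) + c 3 * (sgr (I 0) * sgr (I 1)) +
    c 4 * (sgr (I 0) * sgr (I 2)) + c 5 * (sgr (I 1) * sgr (I 2)) +
    c 6 * (sgr (I 0) * sgr (I 1) * sgr (I 2))) / 8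

theorem sum_fun_real (f : (Fin 3 → Fin 2) → ℝ) : ∑ I, f I =
    f ![0,0,0] + f ![0,0,1] + f ![0,1,0] + f ![0,1,1] + f ![1,0,0] + f ![1,0,1] + f ![1,1,0] + f ![1,1,1] := by
  have h : (Finset.univ : Finset (Fin 3 → Fin 2)) =
    {![0,0,0], ![0,0,1], ![0,1,0], ![0,1,1], ![1,0,0], ![1,0,1], ![1,1,0], ![1,1,1]} := by decide
  rw [h]
  rw [Finset.sum_insert (by decide), Finset.sum_insert (by decide), Finset.sum_insert (by decide),
    Finset.sum_insert (by decide), Finset.sum_insert (by decide), Finset.sum_insert (by decide),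
    Finset.sum_insert (by decide), Finset.sum_singleton]
  ring

theorem Tc_sum (c : Fin 7 → ℝ) : ∑ I, Tc c I = 1 := by
  rw [sum_fun_real]
  simp only [Tc, v0, v1, v2, sgr0, sgr1]
  ring

theorem Tc_nonneg {c : Fin 7 → ℝ} (h : InBox c) (I : Fin 3 → Fin 2) : 0 ≤ Tc c I := by
  obtain ⟨h0, h1, h2, h3, h4, h5, h6⟩ := box_bounds h
  rw [abs_le] at h0 h1 h2 h3 h4 h5 h6
  obtain ⟨a0, b0⟩ := h0
  obtain ⟨a1, b1⟩ := h1
  obtain ⟨a2, b2⟩ := h2
  obtain ⟨a3, b3⟩ := h3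
  obtain ⟨a4, b4⟩ := h4
  obtain ⟨a5, b5⟩ := h5
  obtain ⟨a6, b6⟩ := h6
  have key : ∀ i j k : Fin 2, 0 ≤ (1 + c 0 * sgr i + c 1 * sgr j + c 2 * sgr k + c 3 * (sgr i * sgr j) +
    c 4 * (sgr i * sgr k) + c 5 * (sgr j * sgr k) +
    c 6 * (sgr i * sgr j * sgr k)) / 8 := by
    intro i j k
    fin_cases i <;> fin_cases j <;> fin_cases k <;>
      simp only [Fin.zero_eta, Fin.mk_one, sgr0, sgr1] <;> linarith
  exact key (I 0) (I 1) (I 2)

theorem Lam_Tc (c : Fin 7 → ℝ) : Lam (fun I => (Tc c I : ℂ)) = fun i => (c i : ℂ) := by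
  have hcast : ∀ I : Fin 3 → Fin 2, ((Tc c I : ℝ) : ℂ) =
      (1 + c 0 * sg (I 0) + c 1 * sg (I 1) + c 2 * sg (I 2) + c 3 * (sg (I 0) * sg (I 1)) +
        c 4 * (sg (I 0) * sg (I 2)) + c 5 * (sg (I 1) * sg (I 2)) +
        c 6 * (sg (I 0) * sg (I 1) * sg (I 2))) / 8 := by
    have hs : ∀ i : Fin 2, ((sgr i : ℝ) : ℂ) = sg i := by
      intro i; fin_cases i <;> simp [sgr, sg]
    intro I
    simp only [Tc]
    push_cast
    simp only [hs]
  funext i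
  fin_cases i
  · change Lam _ 0 = (c 0 : ℂ)
    rw [Lam0, sum_fun]; simp only [hcast, v0, v1, v2, sg0, sg1]; ring
  · change Lam _ 1 = (c 1 : ℂ)
    rw [Lam1, sum_fun]; simp only [hcast, v0, v1, v2, sg0, sg1]; ring
  · change Lam _ 2 = (c 2 : ℂ)
    rw [Lam2, sum_fun]; simp only [hcast, v0, v1, v2, sg0, sg1]; ring
  · change Lam _ 3 = (c 3 : ℂ)
    rw [Lam3, sum_fun]; simp only [hcast, v0, v1, v2, sg0, sg1]; ring
  · change Lam _ 4 = (c 4 : ℂ)
    rw [Lam4, sum_fun]; simp only [hcast, v0, v1, v2, sg0, sg1]; ring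
  · change Lam _ 5 = (c 5 : ℂ)
    rw [Lam5, sum_fun]; simp only [hcast, v0, v1, v2, sg0, sg1]; ring
  · change Lam _ 6 = (c 6 : ℂ)
    rw [Lam6, sum_fun]; simp only [hcast, v0, v1, v2, sg0, sg1]; ring

theorem tens_real (x y z : ℝ) (I : Fin 3 → Fin 2) : (tens (x : ℂ) (y : ℂ) (z : ℂ) I).im = 0 := by
  have hs : ∀ i : Fin 2, sg i = ((sgr i : ℝ) : ℂ) := by
    intro i; fin_cases i <;> simp [sgr, sg]
  have : tens (x : ℂ) (y : ℂ) (z : ℂ) I =
      (((1 + sgr (I 0) * x) / 2 * ((1 + sgr (I 1) * y) / 2) * ((1 + sgr (I 2) * z) / 2) : ℝ) : ℂ) := by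
    simp only [tens, hs]
    push_cast
    ring
  rw [this, Complex.ofReal_im]

/-- Everything together. -/
theorem main : ∃ N : ℕ, (∃ P : MvPolynomial (Fin 3 → Fin 2) ℂ, P ≠ 0 ∧
     ∀ T : (Fin 3 → Fin 2) → ℂ, eval T P ≠ 0 → (Crit T).Finite ∧ (Crit T).ncard = N) ∧
  ∃ T : (Fin 3 → Fin 2) → ℝ, (∀ I, 0 ≤ T I) ∧ (∑ I, T I) = 1 ∧
    (Crit (fun I => (T I : ℂ))).Finite ∧ (Crit (fun I => (T I : ℂ))).ncard = N ∧
    ∃ x ∈ {x : (Fin 3 → Fin 2) → ℂ | x ∈ Crit (fun I => (T I : ℂ)) ∧ ∀ I, (x I).im = 0},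
    ∃ y ∈ {x : (Fin 3 → Fin 2) → ℂ | x ∈ Crit (fun I => (T I : ℂ)) ∧ ∀ I, (x I).im = 0}, x ≠ y := by
  obtain ⟨N, Pc, hPc, hmain⟩ := GenFiber.generic_fibre_mv Phi Phi_algebraicIndependent
  obtain ⟨c, hc, hcP⟩ := exists_box_ne_zero hPc
  have hP : ∀ T : (Fin 3 → Fin 2) → ℂ, eval T (aeval LamP Pc) = eval (Lam T) Pc := by
    intro T
    rw [eval_aeval']
    congr 1
    congr 1
    funext i
    exact eval_LamP T i
  have hgood : ∀ T : (Fin 3 → Fin 2) → ℂ, eval T (aeval LamP Pc) ≠ 0 →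
      (Crit T).Finite ∧ (Crit T).ncard = N := by
    intro T hT
    rw [hP] at hT
    obtain ⟨h1, h2⟩ := hmain (Lam T) hT
    obtain ⟨h3, h4⟩ := crit_card rfl h1
    exact ⟨h3, h4.trans h2⟩
  have hTc : eval (fun I => (Tc c I : ℂ)) (aeval LamP Pc) ≠ 0 := by
    rw [hP, Lam_Tc]
    exact hcP
  refine ⟨N, ⟨aeval LamP Pc, ?_, hgood⟩, Tc c, Tc_nonneg hc, Tc_sum c, (hgood _ hTc).1, (hgood _ hTc).2, ?_⟩
  · intro h0
    rw [h0, map_zero] at hTc
    exact hTc rfl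
  · obtain ⟨⟨x, y, z, hs, he⟩, ⟨x', y', z', hs', he'⟩⟩ := exists_two_real hc
    refine ⟨tens x y z, ⟨crit_of_eqs (by rw [Lam_Tc]; exact he), tens_real x y z⟩,
      tens x' y' z', ⟨crit_of_eqs (by rw [Lam_Tc]; exact he'), tens_real x' y' z'⟩, ?_⟩
    intro heq
    obtain ⟨e1, e2, e3⟩ := tens_inj heq
    have f1 : x = x' := Complex.ofReal_injective e1
    have f2 : y = y' := Complex.ofReal_injective e2
    have f3 : z = z' := Complex.ofReal_injective e3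
    rw [f1, f2, f3] at hs
    linarith

end Pool.Agent.Helper52.CritFiber
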